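import Mathlib

/-!
# G3, template: the average of a quartic polynomial over a disk

`kq` has average `-(1 - a - 8 b²)² - (a - 1)² - b²` over the disk with centre `c = a + i b` and radius
`|c|` (the disk through `0`).
-/

set_option autoImplicit false
open MeasureTheory Set
open scoped Real

namespace Pool.Agent.Helper33.G3


theorem tr_ftc {F f : ℝ → ℝ} (h : ∀ x, HasDerivAt F (f x) x) (hf : Continuous f) {c : ℝ}
    (hc : F π - F (-π) = c) : ∫ x in (-π)..π, f x = c := by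
  rw [intervalIntegral.integral_eq_sub_of_hasDerivAt (fun x _ => h x) (hf.intervalIntegrable _ _), hc]

/-- trigonometric polynomials of degree 4 -/
theorem tr_int (a00 a10 a01 a20 a11 a02 a30 a21 a12 a03 a40 a31 a22 a13 a04 : ℝ) :
    ∫ x in (-π)..π, (a00 + a10 * Real.cos x + a01 * Real.sin x + a20 * Real.cos x ^ 2 +
      a11 * (Real.cos x * Real.sin x) + a02 * Real.sin x ^ 2 + a30 * Real.cos x ^ 3 +
      a21 * (Real.cos x ^ 2 * Real.sin x) + a12 * (Real.cos x * Real.sin x ^ 2) +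
      a03 * Real.sin x ^ 3 + a40 * Real.cos x ^ 4 + a31 * (Real.cos x ^ 3 * Real.sin x) +
      a22 * (Real.cos x ^ 2 * Real.sin x ^ 2) + a13 * (Real.cos x * Real.sin x ^ 3) +
      a04 * Real.sin x ^ 4) =
    2 * π * (a00 + a20 / 2 + a02 / 2 + 3 * a40 / 8 + a22 / 8 + 3 * a04 / 8) := by
  refine tr_ftc (F := fun x => a00 * x + a10 * Real.sin x - a01 * Real.cos x +
    a20 / 2 * (x + Real.sin x * Real.cos x) + a11 / 2 * Real.sin x ^ 2 +
    a02 / 2 * (x - Real.sin x * Real.cos x) + a30 * (Real.sin x - Real.sin x ^ 3 / 3) -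
    a21 / 3 * Real.cos x ^ 3 + a12 / 3 * Real.sin x ^ 3 +
    a03 * (Real.cos x ^ 3 / 3 - Real.cos x) +
    a40 * (3 / 8 * x + 3 / 8 * (Real.sin x * Real.cos x) + 1 / 4 * (Real.sin x * Real.cos x ^ 3)) -
    a31 / 4 * Real.cos x ^ 4 +
    a22 * (x / 8 + 1 / 8 * (Real.sin x * Real.cos x) - 1 / 4 * (Real.sin x * Real.cos x ^ 3)) +
    a13 / 4 * Real.sin x ^ 4 +
    a04 * (3 / 8 * x - 3 / 8 * (Real.sin x * Real.cos x) - 1 / 4 * (Real.sin x ^ 3 * Real.cos x)))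
    ?_ (by fun_prop) ?_
  · intro x
    have hs := Real.hasDerivAt_sin x
    have hc := Real.hasDerivAt_cos x
    have hi := hasDerivAt_id' x
    have hsc := hs.mul hc
    have e := (((((((((((((((hi.const_mul a00).add (hs.const_mul a10)).sub
      (hc.const_mul a01)).add
      ((hi.add hsc).const_mul (a20 / 2))).add ((hs.pow 2).const_mul (a11 / 2))).add
      ((hi.sub hsc).const_mul (a02 / 2))).add ((hs.sub ((hs.pow 3).div_const 3)).const_mul a30)).sub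
      ((hc.pow 3).const_mul (a21 / 3))).add ((hs.pow 3).const_mul (a12 / 3))).add
      ((((hc.pow 3).div_const 3).sub hc).const_mul a03)).add
      ((((hi.const_mul (3 / 8)).add (hsc.const_mul (3 / 8))).add
        ((hs.mul (hc.pow 3)).const_mul (1 / 4))).const_mul a40)).sub
      ((hc.pow 4).const_mul (a31 / 4))).add
      ((((hi.div_const 8).add (hsc.const_mul (1 / 8))).sub
        ((hs.mul (hc.pow 3)).const_mul (1 / 4))).const_mul a22)).add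
      ((hs.pow 4).const_mul (a13 / 4))).add
      ((((hi.const_mul (3 / 8)).sub (hsc.const_mul (3 / 8))).sub
        (((hs.pow 3).mul hc).const_mul (1 / 4))).const_mul a04))
    refine HasDerivAt.congr_deriv e ?_
    have h1 := Real.sin_sq_add_cos_sq x
    obtain ⟨s, hs'⟩ : ∃ s, s = Real.sin x := ⟨_, rfl⟩
    obtain ⟨c, hc'⟩ : ∃ c, c = Real.cos x := ⟨_, rfl⟩
    rw [← hs', ← hc'] at h1
    simp only [Pi.pow_apply, ← hs', ← hc', Nat.cast_ofNat]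
    have h2 : s ^ 2 = 1 - c ^ 2 := by linarith
    have h3 : s ^ 3 = s * (1 - c ^ 2) := by rw [← h2]; ring
    have h4 : s ^ 4 = (1 - c ^ 2) ^ 2 := by rw [← h2]; ring
    ring_nf
    simp only [h2, h3, h4]
    ring
  · simp only [Real.sin_neg, Real.cos_neg, Real.sin_pi, Real.cos_pi]
    ring


/-- polar coordinates on a disk centred at 0, for continuous functions -/
theorem disc_polar {f : ℂ → ℝ} (hf : Continuous f) {r : ℝ} (hr : 0 < r) :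
    ∫ z in Metric.ball (0:ℂ) r, f z =
      ∫ ρ in (0:ℝ)..r, ∫ θ in (-π)..π,
        ρ * f (⟨ρ * Real.cos θ, ρ * Real.sin θ⟩ : ℂ) := by
  have hsymm : ∀ p : ℝ × ℝ, Complex.polarCoord.symm p =
      (⟨p.1 * Real.cos p.2, p.1 * Real.sin p.2⟩ : ℂ) := by
    intro p
    rw [Complex.polarCoord_symm_apply]
    apply Complex.ext
    · simp only [Complex.mul_re, Complex.add_re, Complex.ofReal_re, Complex.ofReal_im,
        Complex.mul_im, Complex.add_im, Complex.I_re, Complex.I_im]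
      ring
    · simp only [Complex.mul_re, Complex.add_re, Complex.ofReal_re, Complex.ofReal_im,
        Complex.mul_im, Complex.add_im, Complex.I_re, Complex.I_im]
      ring
  have hnorm : ∀ p : ℝ × ℝ, 0 < p.1 →
      ‖(⟨p.1 * Real.cos p.2, p.1 * Real.sin p.2⟩ : ℂ)‖ = p.1 := by
    intro p hp
    have h1 : ‖(⟨p.1 * Real.cos p.2, p.1 * Real.sin p.2⟩ : ℂ)‖ ^ 2 = p.1 ^ 2 := by
      rw [← Complex.normSq_eq_norm_sq, Complex.normSq_apply]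
      have := Real.sin_sq_add_cos_sq p.2
      have e : p.1 * Real.cos p.2 * (p.1 * Real.cos p.2) + p.1 * Real.sin p.2 *
          (p.1 * Real.sin p.2) = p.1 ^ 2 * (Real.sin p.2 ^ 2 + Real.cos p.2 ^ 2) := by ring
      rw [e, this, mul_one]
    exact (sq_eq_sq₀ (norm_nonneg _) hp.le).1 h1
  have hg : Continuous fun p : ℝ × ℝ =>
      p.1 * f (⟨p.1 * Real.cos p.2, p.1 * Real.sin p.2⟩ : ℂ) := by
    have h1 : Continuous fun p : ℝ × ℝ =>
        (⟨p.1 * Real.cos p.2, p.1 * Real.sin p.2⟩ : ℂ) := by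
      have : (fun p : ℝ × ℝ => (⟨p.1 * Real.cos p.2, p.1 * Real.sin p.2⟩ : ℂ)) =
          fun p : ℝ × ℝ => Complex.equivRealProdCLM.symm
            (p.1 * Real.cos p.2, p.1 * Real.sin p.2) := by
        funext p
        apply Complex.ext <;> simp
      rw [this]
      fun_prop
    exact continuous_fst.mul (hf.comp h1)
  rw [← integral_indicator Metric.isOpen_ball.measurableSet,
    ← Complex.integral_comp_polarCoord_symm]
  have e1 : ∫ p in polarCoord.target, p.1 •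
      (Metric.ball (0:ℂ) r).indicator f (Complex.polarCoord.symm p) =
      ∫ p in Ioo (0:ℝ) r ×ˢ Ioo (-π) π, p.1 * f (⟨p.1 * Real.cos p.2, p.1 * Real.sin p.2⟩ : ℂ) := by
    have ht : polarCoord.target = Ioi (0:ℝ) ×ˢ Ioo (-π) π := rfl
    rw [ht]
    have hsub : Ioo (0:ℝ) r ×ˢ Ioo (-π) π ⊆ Ioi (0:ℝ) ×ˢ Ioo (-π) π :=
      prod_mono Ioo_subset_Ioi_self subset_rfl
    rw [setIntegral_eq_of_subset_of_forall_sdiff_eq_zero
      (measurableSet_Ioi.prod measurableSet_Ioo) hsub]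
    · refine setIntegral_congr_fun (measurableSet_Ioo.prod measurableSet_Ioo) ?_
      rintro p ⟨hp1, hp2⟩
      simp only [smul_eq_mul]
      rw [hsymm, indicator_of_mem]
      rw [mem_ball_zero_iff, hnorm p hp1.1]
      exact hp1.2
    · rintro p ⟨⟨hp1, hp2⟩, hp3⟩
      rw [hsymm, indicator_of_notMem, smul_zero]
      intro h
      rw [mem_ball_zero_iff, hnorm p hp1] at h
      exact hp3 ⟨⟨hp1, h⟩, hp2⟩
  rw [e1, Measure.volume_eq_prod, setIntegral_prod]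
  · rw [intervalIntegral.integral_of_le hr.le, integral_Ioc_eq_integral_Ioo]
    refine setIntegral_congr_fun measurableSet_Ioo fun ρ _ => ?_
    simp only
    rw [intervalIntegral.integral_of_le (by linarith [Real.pi_pos]), integral_Ioc_eq_integral_Ioo]
  · refine (hg.continuousOn.integrableOn_compact
      (isCompact_Icc.prod isCompact_Icc : IsCompact (Icc (0:ℝ) r ×ˢ Icc (-π) π))).mono_set ?_
    exact prod_mono Ioo_subset_Icc_self Ioo_subset_Icc_self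

/-- the quartic polynomial -/
noncomputable def kq (X Y : ℝ) : ℝ :=
  -2 + 4 * X - 25 / 6 * X ^ 2 + 77 / 6 * Y ^ 2 + 2 * X ^ 3 - 14 * (X * Y ^ 2) - 12 / 5 * X ^ 4 +
    168 / 5 * (X ^ 2 * Y ^ 2) - 28 * Y ^ 4

/-- its average over the disk with centre `(a, b)` and radius `√R` -/
noncomputable def gq (a b R : ℝ) : ℝ :=
  -2 + 4 * a - 25 / 6 * (a ^ 2 + R / 4) + 77 / 6 * (b ^ 2 + R / 4) + 2 * (a ^ 3 + 3 * a * R / 4) -
    14 * (a * b ^ 2 + a * R / 4) - 12 / 5 * (a ^ 4 + 3 / 2 * a ^ 2 * R + R ^ 2 / 8) +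
    168 / 5 * (a ^ 2 * b ^ 2 + (a ^ 2 + b ^ 2) * R / 4 + R ^ 2 / 24) -
    28 * (b ^ 4 + 3 / 2 * b ^ 2 * R + R ^ 2 / 8)

theorem gq_eq (a b : ℝ) :
    gq a b (a ^ 2 + b ^ 2) = -(1 - a - 8 * b ^ 2) ^ 2 - ((a - 1) ^ 2 + b ^ 2) := by
  unfold gq
  ring

theorem kq_cont (a b : ℝ) : Continuous fun z : ℂ => kq (a + z.re) (b + z.im) := by
  unfold kq
  fun_prop

theorem disc_kq0 (a b : ℝ) {r : ℝ} (hr : 0 < r) :
    ∫ z in Metric.ball (0:ℂ) r, kq (a + z.re) (b + z.im) = π * r ^ 2 * gq a b (r ^ 2) := by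
  rw [disc_polar (kq_cont a b) hr]
  have h1 : ∀ ρ : ℝ, ∫ θ in (-π)..π, ρ * kq (a + ρ * Real.cos θ) (b + ρ * Real.sin θ) =
      2 * π * ρ * (-2 + 4 * a - 25 / 6 * (a ^ 2 + ρ ^ 2 / 2) + 77 / 6 * (b ^ 2 + ρ ^ 2 / 2) +
        2 * (a ^ 3 + 3 * a * ρ ^ 2 / 2) - 14 * (a * b ^ 2 + a * ρ ^ 2 / 2) -
        12 / 5 * (a ^ 4 + 3 * a ^ 2 * ρ ^ 2 + 3 * ρ ^ 4 / 8) +
        168 / 5 * (a ^ 2 * b ^ 2 + (a ^ 2 + b ^ 2) * ρ ^ 2 / 2 + ρ ^ 4 / 8) -
        28 * (b ^ 4 + 3 * b ^ 2 * ρ ^ 2 + 3 * ρ ^ 4 / 8)) := by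
    intro ρ
    have h2 := tr_int
      (ρ * kq a b)
      (ρ ^ 2 * (4 - 25 / 3 * a + 6 * a ^ 2 - 14 * b ^ 2 - 48 / 5 * a ^ 3 + 336 / 5 * a * b ^ 2))
      (ρ ^ 2 * (77 / 3 * b - 28 * a * b + 336 / 5 * a ^ 2 * b - 112 * b ^ 3))
      (ρ ^ 3 * (-25 / 6 + 6 * a - 72 / 5 * a ^ 2 + 168 / 5 * b ^ 2))
      (ρ ^ 3 * (-28 * b + 672 / 5 * a * b))
      (ρ ^ 3 * (77 / 6 - 14 * a + 168 / 5 * a ^ 2 - 168 * b ^ 2))
      (ρ ^ 4 * (2 - 48 / 5 * a))
      (ρ ^ 4 * (336 / 5 * b))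
      (ρ ^ 4 * (-14 + 336 / 5 * a))
      (ρ ^ 4 * (-112 * b))
      (ρ ^ 5 * (-12 / 5)) 0 (ρ ^ 5 * (168 / 5)) 0 (ρ ^ 5 * (-28))
    have h3 : ∀ x : ℝ, ρ * kq (a + ρ * Real.cos x) (b + ρ * Real.sin x) =
        (ρ * kq a b) +
      (ρ ^ 2 * (4 - 25 / 3 * a + 6 * a ^ 2 - 14 * b ^ 2 - 48 / 5 * a ^ 3 + 336 / 5 * a * b ^ 2)) *
        Real.cos x +
      (ρ ^ 2 * (77 / 3 * b - 28 * a * b + 336 / 5 * a ^ 2 * b - 112 * b ^ 3)) * Real.sin x +
      (ρ ^ 3 * (-25 / 6 + 6 * a - 72 / 5 * a ^ 2 + 168 / 5 * b ^ 2)) * Real.cos x ^ 2 +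
      (ρ ^ 3 * (-28 * b + 672 / 5 * a * b)) * (Real.cos x * Real.sin x) +
      (ρ ^ 3 * (77 / 6 - 14 * a + 168 / 5 * a ^ 2 - 168 * b ^ 2)) * Real.sin x ^ 2 +
      (ρ ^ 4 * (2 - 48 / 5 * a)) * Real.cos x ^ 3 +
      (ρ ^ 4 * (336 / 5 * b)) * (Real.cos x ^ 2 * Real.sin x) +
      (ρ ^ 4 * (-14 + 336 / 5 * a)) * (Real.cos x * Real.sin x ^ 2) +
      (ρ ^ 4 * (-112 * b)) * Real.sin x ^ 3 +
      (ρ ^ 5 * (-12 / 5)) * Real.cos x ^ 4 + 0 * (Real.cos x ^ 3 * Real.sin x) +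
      (ρ ^ 5 * (168 / 5)) * (Real.cos x ^ 2 * Real.sin x ^ 2) +
      0 * (Real.cos x * Real.sin x ^ 3) + (ρ ^ 5 * (-28)) * Real.sin x ^ 4 := by
      intro x
      unfold kq
      ring
    simp only [h3, h2]
    unfold kq
    ring
  have h4 : ∀ ρ : ℝ, ∫ θ in (-π)..π, ρ * kq (a + (⟨ρ * Real.cos θ, ρ * Real.sin θ⟩ : ℂ).re)
      (b + (⟨ρ * Real.cos θ, ρ * Real.sin θ⟩ : ℂ).im) = _ := fun ρ => h1 ρ
  simp only [h4]
  have h5 : ∀ ρ ∈ uIcc (0:ℝ) r, HasDerivAt (fun ρ : ℝ => 2 * π * (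
      ρ ^ 2 / 2 * (-2 + 4 * a - 25 / 6 * a ^ 2 + 77 / 6 * b ^ 2 + 2 * a ^ 3 - 14 * (a * b ^ 2) -
        12 / 5 * a ^ 4 + 168 / 5 * (a ^ 2 * b ^ 2) - 28 * b ^ 4) +
      ρ ^ 4 / 8 * (-25 / 6 + 77 / 6 + 6 * a - 14 * a - 72 / 5 * a ^ 2 +
        168 / 5 * (a ^ 2 + b ^ 2) - 168 * b ^ 2) +
      ρ ^ 6 / 48 * (-36 / 5 + 168 / 5 - 84)))
      (2 * π * ρ * (-2 + 4 * a - 25 / 6 * (a ^ 2 + ρ ^ 2 / 2) + 77 / 6 * (b ^ 2 + ρ ^ 2 / 2) +
        2 * (a ^ 3 + 3 * a * ρ ^ 2 / 2) - 14 * (a * b ^ 2 + a * ρ ^ 2 / 2) -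
        12 / 5 * (a ^ 4 + 3 * a ^ 2 * ρ ^ 2 + 3 * ρ ^ 4 / 8) +
        168 / 5 * (a ^ 2 * b ^ 2 + (a ^ 2 + b ^ 2) * ρ ^ 2 / 2 + ρ ^ 4 / 8) -
        28 * (b ^ 4 + 3 * b ^ 2 * ρ ^ 2 + 3 * ρ ^ 4 / 8))) ρ := by
    intro ρ _
    have e := (((((hasDerivAt_pow 2 ρ).div_const 2).mul_const (-2 + 4 * a - 25 / 6 * a ^ 2 +
        77 / 6 * b ^ 2 + 2 * a ^ 3 - 14 * (a * b ^ 2) -
        12 / 5 * a ^ 4 + 168 / 5 * (a ^ 2 * b ^ 2) - 28 * b ^ 4)).add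
        (((hasDerivAt_pow 4 ρ).div_const 8).mul_const (-25 / 6 + 77 / 6 + 6 * a - 14 * a -
        72 / 5 * a ^ 2 + 168 / 5 * (a ^ 2 + b ^ 2) - 168 * b ^ 2))).add
        (((hasDerivAt_pow 6 ρ).div_const 48).mul_const (-36 / 5 + 168 / 5 - 84))).const_mul (2 * π)
    refine HasDerivAt.congr_deriv e ?_
    push_cast
    ring
  rw [intervalIntegral.integral_eq_sub_of_hasDerivAt h5
    ((by fun_prop : Continuous _).intervalIntegrable _ _)]
  unfold gq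
  ring

theorem disc_kq (c : ℂ) {r : ℝ} (hr : 0 < r) :
    ∫ z in Metric.ball c r, kq z.re z.im = π * r ^ 2 * gq c.re c.im (r ^ 2) := by
  rw [← disc_kq0 c.re c.im hr]
  have h := (measurePreserving_add_left (volume : Measure ℂ) c).setIntegral_preimage_emb
    (MeasurableEquiv.addLeft c).measurableEmbedding (fun z : ℂ => kq z.re z.im)
    (Metric.ball c r)
  rw [← h]
  have e : (fun x => c + x) ⁻¹' Metric.ball c r = Metric.ball (0:ℂ) r := by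
    ext x
    simp
  rw [e]
  rfl

end Pool.Agent.Helper33.G3
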