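import Pool.Agent.Helper33.G3.Disc
import Pool.Agent.Helper17.G3.Tm

/-!
# G3, template: existence

`kT = χ(|z|) (kq + B) - B`, `χ = 1` on `|z| ≤ 4` and `0` on `|z| ≥ 5`, `B = 2 · 10^7`, divided by a bound.
-/

set_option autoImplicit false
open MeasureTheory Set
open scoped Real

namespace Pool.Agent.Helper33.G3

/-! ### bounded Lipschitz functions -/

/-- bounded and Lipschitz -/
def BL (f : ℂ → ℝ) : Prop :=
  ∃ M L : ℝ, 0 ≤ M ∧ 0 ≤ L ∧ (∀ z, |f z| ≤ M) ∧ ∀ z w, |f z - f w| ≤ L * ‖z - w‖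

theorem BL.const (a : ℝ) : BL fun _ => a :=
  ⟨|a|, 0, abs_nonneg a, le_rfl, fun _ => le_rfl, fun z w => by simp⟩

theorem BL.add {f g : ℂ → ℝ} (hf : BL f) (hg : BL g) : BL fun z => f z + g z := by
  obtain ⟨M, L, h1, h2, h3, h4⟩ := hf
  obtain ⟨M', L', k1, k2, k3, k4⟩ := hg
  refine ⟨M + M', L + L', by linarith, by linarith,
    fun z => (abs_add_le _ _).trans (add_le_add (h3 z) (k3 z)), fun z w => ?_⟩
  have e : f z + g z - (f w + g w) = (f z - f w) + (g z - g w) := by ring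
  rw [e, add_mul]
  exact (abs_add_le _ _).trans (add_le_add (h4 z w) (k4 z w))

theorem BL.mul {f g : ℂ → ℝ} (hf : BL f) (hg : BL g) : BL fun z => f z * g z := by
  obtain ⟨M, L, h1, h2, h3, h4⟩ := hf
  obtain ⟨M', L', k1, k2, k3, k4⟩ := hg
  refine ⟨M * M', M * L' + M' * L, by positivity, by positivity, fun z => ?_, fun z w => ?_⟩
  · rw [abs_mul]
    exact mul_le_mul (h3 z) (k3 z) (abs_nonneg _) h1
  · have e : f z * g z - f w * g w = f z * (g z - g w) + g w * (f z - f w) := by ring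
    rw [e, add_mul]
    refine (abs_add_le _ _).trans (add_le_add ?_ ?_)
    · rw [abs_mul, mul_assoc]
      exact mul_le_mul (h3 z) (k4 z w) (abs_nonneg _) h1
    · rw [abs_mul, mul_assoc]
      exact mul_le_mul (k3 w) (h4 z w) (abs_nonneg _) k1

theorem BL.cont {f : ℂ → ℝ} (hf : BL f) : Continuous f := by
  obtain ⟨M, L, h1, h2, h3, h4⟩ := hf
  refine (LipschitzWith.of_dist_le_mul (K := ⟨L, h2⟩) fun z w => ?_).continuous
  rw [Real.dist_eq, dist_eq_norm]
  exact h4 z w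

/-- clamp -/
noncomputable def cl (x : ℝ) : ℝ := max (-5) (min 5 x)

theorem cl_abs (x : ℝ) : |cl x| ≤ 5 := by
  unfold cl
  rw [abs_le]
  exact ⟨le_max_left _ _, max_le (by norm_num) (min_le_left _ _)⟩

theorem cl_lip (x y : ℝ) : |cl x - cl y| ≤ |x - y| := by
  unfold cl
  refine (abs_max_sub_max_le_max (-5) (min 5 x) (-5) (min 5 y)).trans ?_
  rw [sub_self, abs_zero, max_eq_right (abs_nonneg _)]
  refine (abs_min_sub_min_le_max 5 x 5 y).trans ?_
  rw [sub_self, abs_zero, max_eq_right (abs_nonneg _)]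

theorem cl_eq {x : ℝ} (h : |x| ≤ 5) : cl x = x := by
  rw [abs_le] at h
  unfold cl
  rw [min_eq_right h.2, max_eq_right h.1]

theorem BL_re : BL fun z => cl z.re :=
  ⟨5, 1, by norm_num, by norm_num, fun z => cl_abs _, fun z w => by
    rw [one_mul]
    refine (cl_lip _ _).trans ?_
    rw [← Complex.sub_re]
    exact Complex.abs_re_le_norm _⟩

theorem BL_im : BL fun z => cl z.im :=
  ⟨5, 1, by norm_num, by norm_num, fun z => cl_abs _, fun z w => by
    rw [one_mul]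
    refine (cl_lip _ _).trans ?_
    rw [← Complex.sub_im]
    exact Complex.abs_im_le_norm _⟩

/-- the cut-off -/
noncomputable def ct (z : ℂ) : ℝ := max 0 (min 1 (5 - ‖z‖))

theorem ct_nonneg (z : ℂ) : 0 ≤ ct z := le_max_left _ _

theorem ct_le (z : ℂ) : ct z ≤ 1 := max_le zero_le_one (min_le_left _ _)

theorem ct_one {z : ℂ} (h : ‖z‖ ≤ 4) : ct z = 1 := by
  unfold ct
  rw [min_eq_left (by linarith), max_eq_right zero_le_one]

theorem ct_zero {z : ℂ} (h : 5 ≤ ‖z‖) : ct z = 0 := by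
  unfold ct
  rw [max_eq_left]
  exact (min_le_right _ _).trans (by linarith)

theorem BL_ct : BL ct := by
  refine ⟨1, 1, zero_le_one, zero_le_one, fun z => ?_, fun z w => ?_⟩
  · rw [abs_of_nonneg (ct_nonneg z)]
    exact ct_le z
  · unfold ct
    rw [one_mul]
    refine (abs_max_sub_max_le_max 0 (min 1 (5 - ‖z‖)) 0 (min 1 (5 - ‖w‖))).trans ?_
    rw [sub_self, abs_zero, max_eq_right (abs_nonneg _)]
    refine (abs_min_sub_min_le_max 1 (5 - ‖z‖) 1 (5 - ‖w‖)).trans ?_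
    rw [sub_self, abs_zero, max_eq_right (abs_nonneg _)]
    have e : 5 - ‖z‖ - (5 - ‖w‖) = ‖w‖ - ‖z‖ := by ring
    rw [e]
    refine (abs_norm_sub_norm_le w z).trans ?_
    rw [norm_sub_rev]

/-- the constant far out -/
def Bc : ℝ := 20000000

/-- the template before normalisation -/
noncomputable def kT (z : ℂ) : ℝ := ct z * (kq (cl z.re) (cl z.im) + Bc) + -Bc

theorem BL_kT : BL kT := by
  have x := BL_re
  have y := BL_im
  have x2 := x.mul x
  have y2 := y.mul y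
  have h : BL fun z => kq (cl z.re) (cl z.im) := by
    have e := (((((((((BL.const (-2)).add ((BL.const 4).mul x)).add ((BL.const (-25 / 6)).mul x2)).add
      ((BL.const (77 / 6)).mul y2)).add ((BL.const 2).mul (x2.mul x))).add
      ((BL.const (-14)).mul (x.mul y2))).add ((BL.const (-12 / 5)).mul (x2.mul x2))).add
      ((BL.const (168 / 5)).mul (x2.mul y2))).add ((BL.const (-28)).mul (y2.mul y2)))
    refine (congrArg BL ?_).mp e
    funext z
    unfold kq
    ring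
  exact (BL_ct.mul (h.add (BL.const Bc))).add (BL.const (-Bc))

/-! ### bounds -/

theorem kq_abs {X Y T : ℝ} (hT : 0 ≤ T) (hX : |X| ≤ T) (hY : |Y| ≤ T) :
    |kq X Y| ≤ 2 + 4 * T + 17 * T ^ 2 + 16 * T ^ 3 + 64 * T ^ 4 := by
  have x2 : X ^ 2 ≤ T ^ 2 := by rw [← sq_abs]; exact pow_le_pow_left₀ (abs_nonneg _) hX 2
  have y2 : Y ^ 2 ≤ T ^ 2 := by rw [← sq_abs]; exact pow_le_pow_left₀ (abs_nonneg _) hY 2
  have x0 := sq_nonneg X
  have y0 := sq_nonneg Y
  have t0 := sq_nonneg T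
  obtain ⟨x1, x1'⟩ := abs_le.1 hX
  have a1 : |X ^ 3| ≤ T ^ 3 := by rw [abs_pow]; exact pow_le_pow_left₀ (abs_nonneg _) hX 3
  have a2 : |X * Y ^ 2| ≤ T ^ 3 := by
    rw [abs_mul, abs_of_nonneg y0]
    calc |X| * Y ^ 2 ≤ T * T ^ 2 := mul_le_mul hX y2 y0 hT
      _ = T ^ 3 := by ring
  have a3 : X ^ 4 ≤ T ^ 4 := by
    calc X ^ 4 = X ^ 2 * X ^ 2 := by ring
      _ ≤ T ^ 2 * T ^ 2 := mul_le_mul x2 x2 x0 t0
      _ = T ^ 4 := by ring
  have a4 : Y ^ 4 ≤ T ^ 4 := by
    calc Y ^ 4 = Y ^ 2 * Y ^ 2 := by ring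
      _ ≤ T ^ 2 * T ^ 2 := mul_le_mul y2 y2 y0 t0
      _ = T ^ 4 := by ring
  have a5 : X ^ 2 * Y ^ 2 ≤ T ^ 4 := by
    calc X ^ 2 * Y ^ 2 ≤ T ^ 2 * T ^ 2 := mul_le_mul x2 y2 y0 t0
      _ = T ^ 4 := by ring
  have a6 : 0 ≤ X ^ 4 := by positivity
  have a7 : 0 ≤ Y ^ 4 := by positivity
  have a8 : 0 ≤ X ^ 2 * Y ^ 2 := by positivity
  obtain ⟨b1, b2⟩ := abs_le.1 a1
  obtain ⟨b3, b4⟩ := abs_le.1 a2
  unfold kq
  rw [abs_le]
  constructor <;> linarith

theorem kT_eq {z : ℂ} (h : ‖z‖ ≤ 4) : kT z = kq z.re z.im := by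
  unfold kT
  rw [ct_one h, cl_eq ((Complex.abs_re_le_norm z).trans (by linarith)),
    cl_eq ((Complex.abs_im_le_norm z).trans (by linarith))]
  ring

theorem kT_le {z : ℂ} (h : ‖z‖ ≤ 20) : kT z ≤ kq z.re z.im := by
  have h1 := kq_abs (T := 20) (by norm_num) ((Complex.abs_re_le_norm z).trans h)
    ((Complex.abs_im_le_norm z).trans h)
  have h2 : -Bc ≤ kq z.re z.im := by
    have := (abs_le.1 h1).1
    unfold Bc
    norm_num at this ⊢
    linarith
  rcases le_or_gt ‖z‖ 5 with h5 | h5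
  · unfold kT
    rw [cl_eq ((Complex.abs_re_le_norm z).trans h5), cl_eq ((Complex.abs_im_le_norm z).trans h5)]
    have h3 : ct z * (kq z.re z.im + Bc) ≤ 1 * (kq z.re z.im + Bc) :=
      mul_le_mul_of_nonneg_right (ct_le z) (by linarith)
    linarith
  · unfold kT
    rw [ct_zero h5.le]
    linarith

theorem kT_far {z : ℂ} (h : 5 ≤ ‖z‖) : kT z = -Bc := by
  unfold kT
  rw [ct_zero h]
  ring

theorem kT_ind (z : ℂ) :
    kT z ≤ (Metric.ball (0:ℂ) 5).indicator (fun _ => 50000 + Bc) z - Bc := by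
  rcases lt_or_ge ‖z‖ 5 with h | h
  · rw [indicator_of_mem (by rwa [mem_ball_zero_iff])]
    have h1 := kq_abs (T := 5) (by norm_num) (cl_abs z.re) (cl_abs z.im)
    norm_num at h1
    obtain ⟨h2, h3⟩ := abs_le.1 h1
    unfold kT
    have h4 : ct z * (kq (cl z.re) (cl z.im) + Bc) ≤ 1 * (50000 + Bc) := by
      refine mul_le_mul (ct_le z) (by linarith) ?_ zero_le_one
      unfold Bc
      linarith
    linarith
  · rw [kT_far h, indicator_of_notMem (by rw [mem_ball_zero_iff]; linarith)]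
    linarith

/-! ### change of variables -/

theorem det_smul_one (c : ℂ) : |(c • (1 : ℂ →L[ℝ] ℂ)).det| = ‖c‖ ^ 2 := by
  have h : (c • (1 : ℂ →L[ℝ] ℂ)).det = ‖c‖ ^ 2 := by
    have h1 : (((c • (1 : ℂ →L[ℝ] ℂ)) : ℂ →L[ℝ] ℂ) : ℂ →ₗ[ℝ] ℂ) =
        ((c • (LinearMap.id : ℂ →ₗ[ℂ] ℂ)).restrictScalars ℝ) := by
      ext
      all_goals simp
    rw [ContinuousLinearMap.det, h1, LinearMap.det_restrictScalars]
    simp [Algebra.norm_complex_eq, Complex.normSq_eq_norm_sq]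
  rw [h, abs_of_nonneg (by positivity)]

theorem ball_scale {c : ℂ} (hc : c ≠ 0) (d x : ℂ) (g : ℂ → ℝ) :
    ∫ z in Metric.ball x 1, g ((z - d) * c) =
      (‖c‖ ^ 2)⁻¹ * ∫ w in Metric.ball ((x - d) * c) ‖c‖, g w := by
  have hn : 0 < ‖c‖ := norm_pos_iff.2 hc
  have h1 : ∀ z ∈ Metric.ball x 1, HasFDerivWithinAt (fun z => (z - d) * c)
      (c • (1 : ℂ →L[ℝ] ℂ)) (Metric.ball x 1) z := by
    intro z _
    have h2 : HasDerivAt (fun z => (z - d) * c) c z := by
      have := ((hasDerivAt_id z).sub_const d).mul_const c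
      rwa [one_mul] at this
    exact h2.complexToReal_fderiv.hasFDerivWithinAt
  have h3 : InjOn (fun z => (z - d) * c) (Metric.ball x 1) := by
    intro z _ w _ h
    have := mul_right_cancel₀ hc h
    exact sub_left_inj.1 this
  have h4 := integral_image_eq_integral_abs_det_fderiv_smul volume measurableSet_ball h1 h3 g
  have h5 : (fun z => (z - d) * c) '' Metric.ball x 1 = Metric.ball ((x - d) * c) ‖c‖ := by
    ext w
    constructor
    · rintro ⟨z, hz, rfl⟩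
      rw [Metric.mem_ball, dist_eq_norm] at hz ⊢
      have e : (z - d) * c - (x - d) * c = (z - x) * c := by ring
      simp only
      rw [e, norm_mul]
      exact mul_lt_of_lt_one_left hn hz
    · intro hw
      refine ⟨w / c + d, ?_, ?_⟩
      · rw [Metric.mem_ball, dist_eq_norm] at hw ⊢
        have e : w / c + d - x = (w - (x - d) * c) / c := by
          field_simp
          ring
        rw [e, norm_div, div_lt_one hn]
        exact hw
      · simp only
        field_simp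
        ring
  rw [h5] at h4
  rw [h4]
  simp only [det_smul_one, smul_eq_mul]
  rw [integral_const_mul, ← mul_assoc, inv_mul_cancel₀ (by positivity), one_mul]

theorem intOn {f : ℂ → ℝ} (hf : Continuous f) (c : ℂ) (r : ℝ) :
    IntegrableOn f (Metric.ball c r) :=
  (hf.continuousOn.integrableOn_compact (isCompact_closedBall c r)).mono_set
    Metric.ball_subset_closedBall

theorem kq_contz : Continuous fun z : ℂ => kq z.re z.im := by
  unfold kq
  fun_prop

/-- small disks: the exact value -/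
theorem int_kT_eq {c : ℂ} {r : ℝ} (hr : 0 < r) (h : ‖c‖ + r ≤ 4) :
    ∫ z in Metric.ball c r, kT z = π * r ^ 2 * gq c.re c.im (r ^ 2) := by
  rw [← disc_kq c hr]
  refine setIntegral_congr_fun measurableSet_ball fun z hz => kT_eq ?_
  rw [Metric.mem_ball, dist_eq_norm] at hz
  have h1 : ‖z‖ ≤ ‖z - c‖ + ‖c‖ := by
    have := norm_add_le (z - c) c
    rwa [sub_add_cancel] at this
  linarith

/-- all disks through `0` -/
theorem int_kT_le {c : ℂ} (hc : c ≠ 0) {e : ℝ} (he : 0 ≤ e) (he1 : e ≤ 1) (h : e ≤ ‖c - 1‖) :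
    ∫ z in Metric.ball c ‖c‖, kT z ≤ -(π * ‖c‖ ^ 2 * e ^ 2) := by
  have hn : 0 < ‖c‖ := norm_pos_iff.2 hc
  have hπ := Real.pi_pos
  have he2 : e ^ 2 ≤ 1 := pow_le_one₀ he he1
  rcases le_or_gt ‖c‖ 10 with h10 | h10
  · have h1 : ∫ z in Metric.ball c ‖c‖, kT z ≤ ∫ z in Metric.ball c ‖c‖, kq z.re z.im := by
      refine setIntegral_mono_on (intOn BL_kT.cont _ _) (intOn kq_contz _ _) measurableSet_ball
        fun z hz => kT_le ?_
      rw [Metric.mem_ball, dist_eq_norm] at hz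
      have h1 : ‖z‖ ≤ ‖z - c‖ + ‖c‖ := by
        have := norm_add_le (z - c) c
        rwa [sub_add_cancel] at this
      linarith
    refine h1.trans ?_
    have h2 : ‖c‖ ^ 2 = c.re ^ 2 + c.im ^ 2 := by
      rw [← Complex.normSq_eq_norm_sq, Complex.normSq_apply]
      ring
    have h3 : ‖c - 1‖ ^ 2 = (c.re - 1) ^ 2 + c.im ^ 2 := by
      rw [← Complex.normSq_eq_norm_sq, Complex.normSq_apply]
      simp only [Complex.sub_re, Complex.one_re, Complex.sub_im, Complex.one_im]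
      ring
    have h4 : e ^ 2 ≤ ‖c - 1‖ ^ 2 := pow_le_pow_left₀ he h 2
    rw [disc_kq c hn, h2, gq_eq, ← h3, ← h2]
    have h5 : -(1 - c.re - 8 * c.im ^ 2) ^ 2 - ‖c - 1‖ ^ 2 ≤ -e ^ 2 := by
      nlinarith [sq_nonneg (1 - c.re - 8 * c.im ^ 2)]
    calc π * ‖c‖ ^ 2 * (-(1 - c.re - 8 * c.im ^ 2) ^ 2 - ‖c - 1‖ ^ 2) ≤
        π * ‖c‖ ^ 2 * (-e ^ 2) := mul_le_mul_of_nonneg_left h5 (by positivity)
      _ = -(π * ‖c‖ ^ 2 * e ^ 2) := by ring
  · have hi : Integrable ((Metric.ball (0:ℂ) 5).indicator (fun _ => 50000 + Bc)) volume := by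
      rw [integrable_indicator_iff measurableSet_ball]
      exact integrableOn_const measure_ball_lt_top.ne
    have h1 : ∫ z in Metric.ball c ‖c‖, kT z ≤ ∫ z in Metric.ball c ‖c‖,
        ((Metric.ball (0:ℂ) 5).indicator (fun _ => 50000 + Bc) z - Bc) :=
      setIntegral_mono_on (intOn BL_kT.cont _ _)
        (hi.integrableOn.sub (integrableOn_const measure_ball_lt_top.ne)) measurableSet_ball
        fun z _ => kT_ind z
    refine h1.trans ?_
    rw [integral_sub hi.integrableOn (integrableOn_const measure_ball_lt_top.ne)]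
    have h2 : ∫ z in Metric.ball c ‖c‖, (Metric.ball (0:ℂ) 5).indicator (fun _ => 50000 + Bc) z ≤
        (50000 + Bc) * (25 * π) := by
      have h3 : ∫ z in Metric.ball c ‖c‖,
          (Metric.ball (0:ℂ) 5).indicator (fun _ => 50000 + Bc) z ≤
          ∫ z, (Metric.ball (0:ℂ) 5).indicator (fun _ => 50000 + Bc) z := by
        refine setIntegral_le_integral hi (Filter.Eventually.of_forall fun z => ?_)
        refine indicator_nonneg (fun _ _ => ?_) z
        unfold Bc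
        norm_num
      refine h3.trans (le_of_eq ?_)
      rw [integral_indicator measurableSet_ball, setIntegral_const, smul_eq_mul, Measure.real,
        Complex.volume_ball]
      simp only [ENNReal.toReal_mul, ENNReal.toReal_pow]
      rw [ENNReal.toReal_ofReal (by norm_num)]
      simp only [ENNReal.coe_toReal, NNReal.coe_real_pi]
      ring
    have h4 : ∫ z in Metric.ball c ‖c‖, Bc = Bc * (‖c‖ ^ 2 * π) := by
      rw [setIntegral_const, smul_eq_mul, Measure.real, Complex.volume_ball]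
      simp only [ENNReal.toReal_mul, ENNReal.toReal_pow]
      rw [ENNReal.toReal_ofReal hn.le]
      simp only [ENNReal.coe_toReal, NNReal.coe_real_pi]
      ring
    rw [h4]
    have h5 : 100 ≤ ‖c‖ ^ 2 := by nlinarith
    have h6 : π * ‖c‖ ^ 2 * e ^ 2 ≤ π * ‖c‖ ^ 2 := mul_le_of_le_one_right (by positivity) he2
    unfold Bc at *
    nlinarith

/-! ### the derivative -/

/-- the difference quotient of the average when the point moves -/
noncomputable def Dq (a b m : ℝ) : ℝ :=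
  -2 * (a * (4 - 2 * (a ^ 2 + b ^ 2))) + (-4 + 4 * m) * (-25 / 6 * a ^ 2 + 77 / 6 * b ^ 2 -
    18 / 5 * a ^ 2 * (a ^ 2 + b ^ 2) + 42 / 5 * (a ^ 2 + b ^ 2) * (a ^ 2 + b ^ 2) -
    42 * b ^ 2 * (a ^ 2 + b ^ 2)) + (-6 + 12 * m - 8 * m ^ 2) * (2 * a ^ 3 - 14 * a * b ^ 2) +
  (-8 + 24 * m - 32 * m ^ 2 + 16 * m ^ 3) *
    (-12 / 5 * a ^ 4 + 168 / 5 * a ^ 2 * b ^ 2 - 28 * b ^ 4)

theorem Dq_eq (a b m : ℝ) :
    gq ((1 - 2 * m) * a) ((1 - 2 * m) * b) (a ^ 2 + b ^ 2) - gq a b (a ^ 2 + b ^ 2) =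
      m * Dq a b m := by
  unfold gq Dq
  ring

theorem Dq_pos : ∃ ε : ℝ, 0 < ε ∧ ∀ a b m : ℝ, |a - 1| < ε → |b| < ε → |m| < ε →
    1 / 3 < Dq a b m := by
  have h1 : Continuous fun x : ℝ × ℝ × ℝ => Dq x.1 x.2.1 x.2.2 := by
    unfold Dq
    fun_prop
  have h2 : (1:ℝ) / 3 < Dq 1 0 0 := by
    unfold Dq
    norm_num
  have h3 : ∀ᶠ x : ℝ × ℝ × ℝ in nhds (1, 0, 0), 1 / 3 < Dq x.1 x.2.1 x.2.2 :=
    h1.continuousAt.eventually_const_lt h2
  rw [Metric.eventually_nhds_iff] at h3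
  obtain ⟨ε, hε, h⟩ := h3
  refine ⟨ε, hε, fun a b m ha hb hm => ?_⟩
  refine h (y := (a, b, m)) ?_
  rw [Prod.dist_eq, Prod.dist_eq]
  simp only [Real.dist_eq, sub_zero]
  exact max_lt ha (max_lt hb hm)

open Pool.Agent.Helper17.G3 in
theorem exists_tm : ∃ (k : ℂ → ℝ) (Lk ρ kinf c1 c2 e2 m1 : ℝ), Tm k Lk ρ kinf c1 c2 e2 m1 := by
  obtain ⟨M₀, L₀, hM₀, hL₀, hM, hL⟩ := BL_kT
  obtain ⟨ε, hε, hD⟩ := Dq_pos
  have hπ := Real.pi_pos
  obtain ⟨M, hMd⟩ : ∃ M : ℝ, M = M₀ + 1 := ⟨_, rfl⟩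
  have hM1 : 0 < M := by linarith
  obtain ⟨e2, he2d⟩ : ∃ e2 : ℝ, e2 = min (ε / 2) (1 / 2) := ⟨_, rfl⟩
  have he2 : 0 < e2 := by rw [he2d]; exact lt_min (by linarith) (by norm_num)
  have he2' : e2 ≤ 1 / 2 := by rw [he2d]; exact min_le_right _ _
  have he2'' : e2 < ε := by
    rw [he2d]
    exact (min_le_left _ _).trans_lt (by linarith)
  have hcont : Continuous kT := BL_kT.cont
  have hone : ∫ z in Metric.ball (1:ℂ) 1, kT z = 0 := by
    rw [int_kT_eq one_pos (by norm_num)]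
    unfold gq
    simp only [Complex.one_re, Complex.one_im]
    ring
  refine ⟨fun z => M⁻¹ * kT z, M⁻¹ * (L₀ + 1), 5, M⁻¹ * -Bc, M⁻¹ * (π * e2 ^ 2), M⁻¹ * (π / 3), e2,
    min (ε / 2) (1 / 4), ⟨?_, ?_, ?_, ?_, ?_, ?_, ?_, ?_, he2, he2', ?_, ?_, ?_⟩⟩
  · exact (continuous_const.mul hcont).measurable
  · intro z
    rw [abs_mul, abs_of_pos (inv_pos.2 hM1), inv_mul_le_one₀ hM1]
    exact (hM z).trans (by linarith)
  · intro z w
    rw [← mul_sub, abs_mul, abs_of_pos (inv_pos.2 hM1), mul_assoc]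
    refine mul_le_mul_of_nonneg_left ?_ (inv_pos.2 hM1).le
    refine (hL z w).trans ?_
    have := norm_nonneg (z - w)
    nlinarith
  · intro z hz
    rw [kT_far hz]
  · positivity
  · norm_num
  · positivity
  · positivity
  · exact lt_min (by linarith) (by norm_num)
  · intro ζ hζ h
    have hc : (1 / ζ) ≠ 0 := one_div_ne_zero hζ
    have e1 : ∀ z : ℂ, M⁻¹ * kT (z / ζ) - M⁻¹ * kT z = M⁻¹ * (kT ((z - 0) * (1 / ζ)) - kT z) := by
      intro z
      rw [sub_zero, mul_one_div]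
      ring
    simp only [e1]
    have k1 : Continuous fun z : ℂ => kT ((z - 0) * (1 / ζ)) := hcont.comp (by fun_prop)
    rw [integral_const_mul, integral_sub (intOn k1 _ _) (intOn hcont _ _), hone, sub_zero,
      ball_scale hc]
    have h1 := int_kT_le hc he2.le (by linarith) h
    have h2 : (1 - (0:ℂ)) * (1 / ζ) = 1 / ζ := by ring
    rw [h2, ← mul_neg]
    refine mul_le_mul_of_nonneg_left ?_ (inv_pos.2 hM1).le
    have hn : 0 < ‖1 / ζ‖ := norm_pos_iff.2 hc
    rw [inv_mul_le_iff₀ (by positivity)]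
    linarith
  · intro ζ hζ h m hm hm1
    have hc : (1 / ζ) ≠ 0 := one_div_ne_zero hζ
    obtain ⟨c, hcd⟩ : ∃ c : ℂ, c = 1 / ζ := ⟨_, rfl⟩
    rw [← hcd] at h hc
    have hmε : m < ε := by
      have := hm1.trans (min_le_left _ _)
      linarith
    have hm4 : m ≤ 1 / 4 := hm1.trans (min_le_right _ _)
    have e1 : ∀ z : ℂ, M⁻¹ * kT ((z - ((2 * m : ℝ) : ℂ)) / ζ) - M⁻¹ * kT (z / ζ) =
        M⁻¹ * (kT ((z - ((2 * m : ℝ) : ℂ)) * c) - kT ((z - 0) * c)) := by
      intro z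
      rw [sub_zero, hcd, mul_one_div, mul_one_div]
      ring
    simp only [e1]
    have k1 : Continuous fun z : ℂ => kT ((z - ((2 * m : ℝ) : ℂ)) * c) :=
      hcont.comp (by fun_prop)
    have k2 : Continuous fun z : ℂ => kT ((z - 0) * c) := hcont.comp (by fun_prop)
    rw [integral_const_mul, integral_sub (intOn k1 _ _) (intOn k2 _ _), ball_scale hc,
      ball_scale hc]
    have hn : 0 < ‖c‖ := norm_pos_iff.2 hc
    have hn1 : ‖c‖ ≤ 3 / 2 := by
      have := norm_add_le (c - 1) 1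
      rw [sub_add_cancel, norm_one] at this
      linarith
    have h2 : (1 - (0:ℂ)) * c = c := by ring
    have h3 : (1 - (((2 * m : ℝ) : ℂ))) * c = ⟨(1 - 2 * m) * c.re, (1 - 2 * m) * c.im⟩ := by
      apply Complex.ext <;> simp
    have h4 : ‖(⟨(1 - 2 * m) * c.re, (1 - 2 * m) * c.im⟩ : ℂ)‖ ≤ ‖c‖ := by
      rw [← h3, norm_mul]
      refine mul_le_of_le_one_left hn.le ?_
      have e : (1 - (((2 * m : ℝ) : ℂ))) = ((1 - 2 * m : ℝ) : ℂ) := by push_cast; ring
      rw [e, Complex.norm_real, Real.norm_eq_abs, abs_of_nonneg (by linarith)]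
      linarith
    have h5 : ‖c‖ ^ 2 = c.re ^ 2 + c.im ^ 2 := by
      rw [← Complex.normSq_eq_norm_sq, Complex.normSq_apply]
      ring
    rw [h2, h3, int_kT_eq hn (by linarith), int_kT_eq hn (by linarith)]
    simp only
    rw [h5, mul_assoc M⁻¹]
    refine mul_le_mul_of_nonneg_left ?_ (inv_pos.2 hM1).le
    have h6 := Dq_eq c.re c.im m
    have h7 : 1 / 3 < Dq c.re c.im m := by
      refine hD _ _ _ ?_ ?_ ?_
      · have := Complex.abs_re_le_norm (c - 1)
        rw [Complex.sub_re, Complex.one_re] at this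
        linarith
      · have := Complex.abs_im_le_norm (c - 1)
        rw [Complex.sub_im, Complex.one_im, sub_zero] at this
        linarith
      · rwa [abs_of_pos hm]
    have h8 : 0 < c.re ^ 2 + c.im ^ 2 := by rw [← h5]; positivity
    rw [← mul_sub, ← mul_sub, h6]
    have h9 : (c.re ^ 2 + c.im ^ 2)⁻¹ * (π * (c.re ^ 2 + c.im ^ 2) * (m * Dq c.re c.im m)) =
        π * m * Dq c.re c.im m := by
      field_simp
    rw [h9]
    have h10 : 0 < π * m := by positivity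
    nlinarith

end Pool.Agent.Helper33.G3
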